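import Mathlib
import Pool.Agent.Lib.MP_f42431_co.CompsInv

/-!
# MP_f42431_co: inversion monotonicity for permutations with many sum-components

For a pattern `p` let `τ(p)` be the number of its entries that lie in no inversion. A `p`-avoiding
permutation with at least `τ(p)` sum-components has a place between two components (or at an end)
where a component of size one can be inserted without creating `p`, and inserting it at the first
such place is injective. Hence inversion monotonicity holds for the permutations with at least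
`τ(p)` sum-components, and in full as soon as `n ≥ k + τ(p)`.
-/

namespace Pool.Agent.Results.MP_f42431_co.SumComponents

open Pool.Agent.Lib.MP_f42431_co

/-- Inversion monotonicity for permutations with at least `τ(p)` sum-components, and for all
permutations when `n ≥ k + τ(p)`. -/
theorem result (m : ℕ) (p : Equiv.Perm (Fin m)) (n k : ℕ) :
    (∀ c : ℕ, tau p ≤ c →
      Nat.card {σ : Equiv.Perm (Fin n) // ¬ Contains p σ ∧ inv σ = k ∧ c ≤ comps σ} ≤
      Nat.card {σ : Equiv.Perm (Fin (n + 1)) //
        ¬ Contains p σ ∧ inv σ = k ∧ c + 1 ≤ comps σ}) ∧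
    (k + tau p ≤ n →
      Nat.card {σ : Equiv.Perm (Fin n) // ¬ Contains p σ ∧ inv σ = k} ≤
      Nat.card {σ : Equiv.Perm (Fin (n + 1)) // ¬ Contains p σ ∧ inv σ = k}) := by
  have hA : ∀ c : ℕ, tau p ≤ c →
      Nat.card {σ : Equiv.Perm (Fin n) // ¬ Contains p σ ∧ inv σ = k ∧ c ≤ comps σ} ≤
      Nat.card {σ : Equiv.Perm (Fin (n + 1)) //
        ¬ Contains p σ ∧ inv σ = k ∧ c + 1 ≤ comps σ} := by
    intro c hc
    obtain ⟨F, hF⟩ := exists_inj p n k c hc
    exact Nat.card_le_card_of_injective F hF
  refine ⟨hA, fun hn => ?_⟩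
  have h1 : Nat.card {σ : Equiv.Perm (Fin n) // ¬ Contains p σ ∧ inv σ = k} ≤
      Nat.card {σ : Equiv.Perm (Fin n) // ¬ Contains p σ ∧ inv σ = k ∧ tau p ≤ comps σ} := by
    refine Nat.card_le_card_of_injective
      (fun σ => ⟨σ.1, σ.2.1, σ.2.2, ?_⟩) (fun σ ρ h => Subtype.ext (by simpa using h))
    have := le_comps_add_inv σ.1
    have := σ.2.2
    omega
  have h2 : Nat.card {σ : Equiv.Perm (Fin (n + 1)) //
        ¬ Contains p σ ∧ inv σ = k ∧ tau p + 1 ≤ comps σ} ≤
      Nat.card {σ : Equiv.Perm (Fin (n + 1)) // ¬ Contains p σ ∧ inv σ = k} :=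
    Nat.card_le_card_of_injective
      (fun σ => ⟨σ.1, σ.2.1, σ.2.2.1⟩) (fun σ ρ h => Subtype.ext (by simpa using h))
  exact h1.trans ((hA (tau p) le_rfl).trans h2)

end Pool.Agent.Results.MP_f42431_co.SumComponents
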