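import Mathlib
import Pool.Agent.Lib.MP_f42431_co.Uni.Final

/-!
# MP_f42431_co: inversion monotonicity with a threshold that does not depend on the pattern

For `n + 1 < |p|` nothing contains `p`, for `n ≥ k + τ(p)` (`τ(p) ≤ |p| - 2` the number of entries
of `p` in no inversion) a fixed point can be inserted at a safe place. In the remaining cases `p` is
obtained from a permutation `σ` of length `n + 1` by deleting at most `k - 2` entries, and then two
of the `k` inversions of `σ` are not needed for these deletions and sit at places that are known up
to `k` respectively `3 k` choices. Moving one of them to an arbitrary place and one to the end shows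
that the permutations with `k` inversions that contain `p` are at most as many as those with
`k` inversions that do not end with their maximum, if `n ≥ 3 k ^ 3`.
-/

namespace Pool.Agent.Results.MP_f42431_co.UniformThreshold

open Pool.Agent.Lib.MP_f42431_co

/-- Inversion monotonicity for every pattern `p` that is not increasing and all `n ≥ 3 k ^ 3`. -/
theorem result (m : ℕ) (p : Equiv.Perm (Fin m)) (hp : p ≠ 1) (n k : ℕ) (hn : 3 * k ^ 3 ≤ n) :
    Nat.card {σ : Equiv.Perm (Fin n) // ¬ Contains p σ ∧ inv σ = k} ≤
      Nat.card {σ : Equiv.Perm (Fin (n + 1)) // ¬ Contains p σ ∧ inv σ = k} :=
  uniform p hp n k hn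

end Pool.Agent.Results.MP_f42431_co.UniformThreshold
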